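import Mathlib
import Pool.Agent.H47.CP.Defs
import Pool.Agent.H55.CP.CPB
import Pool.Agent.H47.CP.CPH
import Pool.Agent.H47.CP.Pow

set_option autoImplicit false

/-!
# One-point compactifications of discrete spaces and the cellularity of homogeneous compacta

Let `D` be an infinite discrete space of any cardinality and `A(D)` its one-point compactification.
The following are equivalent: `C_p(A(D))` embeds in `C_p(Y)` for some homogeneous compactum `Y`; for
all compacta `X` which are continuous images of products of a finite power of `A(D)` and a homogeneous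
compactum, there is a linear embedding of `C_p(X)` in `C_p(Y)` for some homogeneous compactum `Y`;
there are some compactum `X` with `|D|` pairwise disjoint nonempty open sets, some homogeneous
compactum `Y` and a continuous injection of `C_p(X)` in `C_p(Y)`; there is a homogeneous compactum with
`|D|` pairwise disjoint nonempty open sets.

So for the compacta `A(D)`, and for the continuous images of the products of their finite powers with
homogeneous compacta, the two questions are equivalent to each other and to van Douwen's problem (are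
there homogeneous compacta of arbitrarily large cellularity?), and a positive answer to the first
question for one compactum with `|D|` pairwise disjoint nonempty open sets gives a positive answer to
the second one for all of these compacta.
-/

namespace Pool.Agent.Results.MP_eb7862_gt.CellularityCriterion

open Pool.Agent.H47.CP

/-- `Y` is homogeneous. -/
def Homogeneous (Y : Type) [TopologicalSpace Y] : Prop :=
  ∀ y y' : Y, ∃ h : Y ≃ₜ Y, h y = y'

/-- `X` has a family of pairwise disjoint nonempty open sets indexed by `D`. -/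
def HasDisjointOpens (D X : Type) [TopologicalSpace X] : Prop :=
  ∃ V : D → Set X, (∀ a, IsOpen (V a)) ∧ (∀ a, (V a).Nonempty) ∧
    Pairwise (fun a b => Disjoint (V a) (V b))

/-- the answer to Q1 for `X` is positive: `C_p(X)` embeds in `C_p(Y)` for some homogeneous compact
Hausdorff space `Y` -/
def Q1For (X : Type) [TopologicalSpace X] : Prop :=
  ∃ (Y : Type) (_ : TopologicalSpace Y), CompactSpace Y ∧ T2Space Y ∧ Homogeneous Y ∧
    ∃ e : Cp X → Cp Y, Topology.IsEmbedding e

/-- the answer to Q2 for `X` is positive: `C_p(X)` has a linear embedding in `C_p(Y)` for some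
homogeneous compact Hausdorff space `Y` -/
def Q2For (X : Type) [TopologicalSpace X] : Prop :=
  ∃ (Y : Type) (_ : TopologicalSpace Y), CompactSpace Y ∧ T2Space Y ∧ Homogeneous Y ∧
    ∃ e : Cp X → Cp Y, Topology.IsEmbedding e ∧ IsLin e

/-- there is a continuous injection of `C_p(X)` in `C_p(Y)` for some homogeneous compact Hausdorff
space `Y` -/
def WeakQ1For (X : Type) [TopologicalSpace X] : Prop :=
  ∃ (Y : Type) (_ : TopologicalSpace Y), CompactSpace Y ∧ T2Space Y ∧ Homogeneous Y ∧
    ∃ e : Cp X → Cp Y, Continuous e ∧ Function.Injective e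

theorem result (D : Type) [TopologicalSpace D] [DiscreteTopology D] [Infinite D] :
    List.TFAE [
      Q1For (OnePoint D),
      ∀ (n : ℕ) (H X : Type) (_ : TopologicalSpace H) (_ : TopologicalSpace X),
        CompactSpace H → T2Space H → Homogeneous H → CompactSpace X → T2Space X →
        (∃ π : (Fin n → OnePoint D) × H → X, Continuous π ∧ Function.Surjective π) → Q2For X,
      ∃ (X : Type) (_ : TopologicalSpace X), CompactSpace X ∧ T2Space X ∧
        HasDisjointOpens D X ∧ WeakQ1For X,
      ∃ (Y : Type) (_ : TopologicalSpace Y), CompactSpace Y ∧ T2Space Y ∧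
        Homogeneous Y ∧ HasDisjointOpens D Y] := by
  tfae_have 2 → 1 := by
    intro h
    obtain ⟨Y, tY, h1, h2, h3, e, h4, -⟩ := h 1 Unit (OnePoint D) inferInstance inferInstance
      inferInstance inferInstance (fun y y' => ⟨Homeomorph.refl _, rfl⟩) inferInstance inferInstance
      ⟨fun v => v.1 0, (continuous_apply 0).comp continuous_fst, fun x => ⟨(fun _ => x, ()), rfl⟩⟩
    exact ⟨Y, tY, h1, h2, h3, e, h4⟩
  tfae_have 1 → 3 := by
    rintro ⟨Y, tY, h1, h2, h3, e, h4⟩
    refine ⟨OnePoint D, inferInstance, inferInstance, inferInstance, ?_,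
      Y, tY, h1, h2, h3, e, h4.continuous, h4.injective⟩
    refine ⟨fun a => {(a : OnePoint D)}, fun a => ?_, fun a => Set.singleton_nonempty _, ?_⟩
    · have := (OnePoint.isOpenEmbedding_coe (X := D)).isOpenMap {a} (isOpen_discrete _)
      simpa using this
    · intro a b hab
      simp only [Set.disjoint_singleton]
      exact fun h => hab (OnePoint.coe_injective h)
  tfae_have 3 → 4 := by
    rintro ⟨X, tX, h1, h2, ⟨U, hU1, hU2, hU3⟩, Y, tY, h3, h4, h5, e, h6, h7⟩
    by_cases hD : Cardinal.aleph0 < Cardinal.mk D
    · obtain ⟨e', he', -⟩ := linear_embedding (Y := X) (D := D) U hU1 hU2 hU3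
      obtain ⟨V, hV1, hV2, -, hV3⟩ := cellular_of_injection_hom (Y := Y) h5 (D := D) hD (e ∘ e')
        (h6.comp he'.continuous) (h7.comp he'.injective)
      exact ⟨Y, tY, h3, h4, h5, V, hV1, hV2, hV3⟩
    · obtain ⟨V, hV1, hV2, -, hV3⟩ := fam_cantor (D := D) (not_lt.1 hD)
      exact ⟨ℕ → Bool, inferInstance, inferInstance, inferInstance, cantor_homogeneous,
        V, hV1, hV2, hV3⟩
  tfae_have 4 → 2 := by
    rintro ⟨Y, tY, h1, h2, h3, U, hU1, hU2, hU3⟩ n H X tH tX cH sH hH cX sX ⟨ρ, hρ, hρs⟩
    have hE : Ext (OnePoint D) Y := ext_onePoint U hU1 hU2 hU3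
    obtain ⟨Z, W, tZ, tW, c1, c2, t2, hW, hE', π, hπ, hπs⟩ := powers h3 hE n
    have hid : Ext H H := ⟨id, fun f hf => hf, fun y => ⟨{y}, fun _ => 1, by simp, by simp⟩,
      fun x => ⟨x, fun f => rfl⟩⟩
    obtain ⟨e, he, hl⟩ := surj_embedding (fun w : Z × H => ρ (π w.1, w.2))
      (hρ.comp ((hπ.comp continuous_fst).prodMk continuous_snd)) (by
        intro x
        obtain ⟨⟨v, k⟩, hv⟩ := hρs x
        obtain ⟨z, hz⟩ := hπs v
        exact ⟨(z, k), by simp only [hz, hv]⟩)
    obtain ⟨e', he', hl'⟩ := (hE'.prod hid).embedding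
    refine ⟨W × H, inferInstance, inferInstance, inferInstance, ?_, e' ∘ e, he'.comp he,
      lin_comp e e' hl hl'⟩
    rintro ⟨a, b⟩ ⟨a', b'⟩
    obtain ⟨g, hg⟩ := hW a a'
    obtain ⟨k, hk⟩ := hH b b'
    exact ⟨g.prodCongr k, by simp [hg, hk]⟩
  tfae_finish

end Pool.Agent.Results.MP_eb7862_gt.CellularityCriterion
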